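import Mathlib

/-!
# The slowest chain problem for nu-chains on grids (MP_00a158_co, Q1)

Cells of the `m x n` grid are the pairs `(i, j)` with `i < m`, `j < n` (the cell `(i+1, j+1)` of
the problem).
-/

namespace Pool.Agent.Results.MP_00a158_co.SlowestChain

open Finset

/-- The cells of the `m x n` grid. -/
def grid (m n : ℕ) : Finset (ℕ × ℕ) := Finset.range m ×ˢ Finset.range n

/-- Two cells are adjacent when `|i - i'| + |j - j'| = 1`. -/
def Adj (p q : ℕ × ℕ) : Prop :=
  ((p.1 : ℤ) - q.1).natAbs + ((p.2 : ℤ) - q.2).natAbs = 1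

instance (p q : ℕ × ℕ) : Decidable (Adj p q) := by unfold Adj; infer_instance

/-- Order ideals (down-sets) of the grid. -/
def IsIdeal (m n : ℕ) (A : Finset (ℕ × ℕ)) : Prop :=
  A ⊆ grid m n ∧ ∀ p ∈ A, ∀ q : ℕ × ℕ, q.1 ≤ p.1 → q.2 ≤ p.2 → q ∈ A

/-- Closed neighbourhood `N[A]` in the grid. -/
def nbhd (m n : ℕ) (A : Finset (ℕ × ℕ)) : Finset (ℕ × ℕ) :=
  (grid m n).filter (fun c => c ∈ A ∨ ∃ a ∈ A, Adj a c)

/-- `nu(s)`: the least size of `N[A]` over the order ideals `A` of size `s`. -/
noncomputable def nu (m n s : ℕ) : ℕ :=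
  sInf {k | ∃ A, IsIdeal m n A ∧ A.card = s ∧ (nbhd m n A).card = k}

/-- `c 0, ..., c L` is a nu-chain. -/
structure IsNuChain (m n L : ℕ) (c : ℕ → ℕ) : Prop where
  le : ∀ l ≤ L, c l ≤ m * n
  step : ∀ l < L, nu m n (c l) ≤ c (l + 1)

/-- The weight of `c 0, ..., c L`. -/
def W (m n L : ℕ) (c : ℕ → ℕ) : ℕ :=
  ∑ l ∈ Finset.range (L + 1), min (c l) (m * n - c l)

/-- The antidiagonal chain. -/
def anti (m n l : ℕ) : ℕ := ((grid m n).filter (fun p => p.1 + p.2 ≤ l)).card

/-- `D(m, n)`, the weight of the antidiagonal chain. -/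
def D (m n : ℕ) : ℕ := W m n (m + n - 2) (anti m n)

/-! ## Part 1: the isoperimetric inequality for ideals -/

/-- column heights -/
def ht (n : ℕ) (A : Finset (ℕ × ℕ)) (i : ℕ) : ℕ :=
  ((Finset.range n).filter (fun j => (i, j) ∈ A)).card

lemma downset_eq_range (S : Finset ℕ) (h : ∀ x ∈ S, ∀ y ≤ x, y ∈ S) :
    S = Finset.range S.card := by
  apply Finset.eq_of_subset_of_card_le
  · intro x hx
    rw [Finset.mem_range]
    have : Finset.range (x + 1) ⊆ S := by
      intro y hy
      rw [Finset.mem_range] at hy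
      exact h x hx y (by omega)
    have := Finset.card_le_card this
    rw [Finset.card_range] at this
    omega
  · rw [Finset.card_range]

lemma card_cols (m n : ℕ) (P : ℕ × ℕ → Prop) [DecidablePred P] :
    ((grid m n).filter P).card
      = ∑ i ∈ Finset.range m, ((Finset.range n).filter (fun j => P (i, j))).card := by
  unfold grid
  rw [Finset.card_filter, Finset.sum_product]
  apply Finset.sum_congr rfl
  intro i _
  rw [Finset.card_filter]

lemma mem_iff_ht {m n : ℕ} {A : Finset (ℕ × ℕ)} (hA : IsIdeal m n A) {i j : ℕ} :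
    (i, j) ∈ A ↔ j < ht n A i := by
  have hd := downset_eq_range ((Finset.range n).filter (fun j => (i, j) ∈ A)) (by
    intro x hx y hy
    rw [Finset.mem_filter, Finset.mem_range] at hx ⊢
    exact ⟨by omega, hA.2 _ hx.2 (i, y) le_rfl hy⟩)
  have : j ∈ (Finset.range n).filter (fun j => (i, j) ∈ A) ↔ j ∈ Finset.range (ht n A i) := by
    rw [ht, ← hd]
  rw [Finset.mem_filter, Finset.mem_range, Finset.mem_range] at this
  constructor
  · intro h
    have hg := hA.1 h
    simp only [grid, Finset.mem_product, Finset.mem_range] at hg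
    exact this.1 ⟨hg.2, h⟩
  · intro h
    exact (this.2 h).2

lemma ht_le (n : ℕ) (A : Finset (ℕ × ℕ)) (i : ℕ) : ht n A i ≤ n := by
  unfold ht
  calc _ ≤ (Finset.range n).card := Finset.card_filter_le _ _
    _ = n := Finset.card_range n

lemma ht_anti {m n : ℕ} {A : Finset (ℕ × ℕ)} (hA : IsIdeal m n A) {i i' : ℕ} (h : i ≤ i') :
    ht n A i' ≤ ht n A i := by
  by_contra hc
  push Not at hc
  have h1 : (i', ht n A i) ∈ A := (mem_iff_ht hA).2 hc
  have h2 : (i, ht n A i) ∈ A := hA.2 _ h1 (i, ht n A i) h le_rfl
  have := (mem_iff_ht hA).1 h2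
  omega

lemma card_eq_sum_ht {m n : ℕ} {A : Finset (ℕ × ℕ)} (hA : IsIdeal m n A) :
    A.card = ∑ i ∈ Finset.range m, ht n A i := by
  have : A = (grid m n).filter (fun p => p ∈ A) := by
    ext p
    rw [Finset.mem_filter]
    exact ⟨fun h => ⟨hA.1 h, h⟩, fun h => h.2⟩
  conv_lhs => rw [this]
  rw [card_cols]
  rfl

/-- indicator of `1 ≤ x < n` -/
def ee (n x : ℕ) : ℕ := if 1 ≤ x ∧ x < n then 1 else 0

lemma col_nbhd_zero {m n : ℕ} {A : Finset (ℕ × ℕ)} (hA : IsIdeal m n A) {i : ℕ} (hi : i < m) :
    ht n A i + ee n (ht n A i)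
      ≤ ((Finset.range n).filter (fun j => (i, j) ∈ nbhd m n A)).card := by
  have hsub : Finset.range (ht n A i + ee n (ht n A i)) ⊆
      (Finset.range n).filter (fun j => (i, j) ∈ nbhd m n A) := by
    intro j hj
    rw [Finset.mem_range] at hj
    have hn := ht_le n A i
    have hjn : j < n := by
      unfold ee at hj
      split_ifs at hj <;> omega
    rw [Finset.mem_filter, Finset.mem_range]
    refine ⟨hjn, ?_⟩
    unfold nbhd
    rw [Finset.mem_filter]
    refine ⟨by simp [grid, hi, hjn], ?_⟩
    by_cases hlt : j < ht n A i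
    · exact Or.inl ((mem_iff_ht hA).2 hlt)
    · right
      unfold ee at hj
      split_ifs at hj with hc
      · have hj' : j = ht n A i := by omega
        refine ⟨(i, j - 1), (mem_iff_ht hA).2 (by omega), ?_⟩
        unfold Adj
        simp only
        omega
      · omega
  have := Finset.card_le_card hsub
  rwa [Finset.card_range] at this

lemma col_nbhd_succ {m n : ℕ} {A : Finset (ℕ × ℕ)} (hA : IsIdeal m n A) {i : ℕ}
    (hi : i + 1 < m) :
    ht n A i
      ≤ ((Finset.range n).filter (fun j => (i + 1, j) ∈ nbhd m n A)).card := by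
  have hsub : Finset.range (ht n A i) ⊆
      (Finset.range n).filter (fun j => (i + 1, j) ∈ nbhd m n A) := by
    intro j hj
    rw [Finset.mem_range] at hj
    have hn := ht_le n A i
    rw [Finset.mem_filter, Finset.mem_range]
    refine ⟨by omega, ?_⟩
    unfold nbhd
    rw [Finset.mem_filter]
    refine ⟨by simp [grid, hi]; omega, ?_⟩
    right
    refine ⟨(i, j), (mem_iff_ht hA).2 hj, ?_⟩
    unfold Adj
    simp only
    push_cast
    omega
  have := Finset.card_le_card hsub
  rwa [Finset.card_range] at this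

/-- lower bound for `|N[A]| - |A|` in terms of the heights -/
def bb (n : ℕ) (h : ℕ → ℕ) (M : ℕ) : ℕ :=
  ee n (h 0) + ∑ i ∈ Finset.range M, max (h i - h (i + 1)) (ee n (h (i + 1)))

lemma card_nbhd_ge {m n : ℕ} {A : Finset (ℕ × ℕ)} (hA : IsIdeal (m + 1) n A) :
    A.card + bb n (ht n A) m ≤ (nbhd (m + 1) n A).card := by
  have h1 : (nbhd (m + 1) n A).card = ∑ i ∈ Finset.range (m + 1),
      ((Finset.range n).filter (fun j => (i, j) ∈ nbhd (m + 1) n A)).card := by
    have : nbhd (m + 1) n A = (grid (m + 1) n).filter (fun p => p ∈ nbhd (m + 1) n A) := by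
      ext p
      rw [Finset.mem_filter]
      refine ⟨fun h => ⟨?_, h⟩, fun h => h.2⟩
      exact (Finset.mem_filter.1 h).1
    conv_lhs => rw [this]
    rw [card_cols]
  rw [h1, card_eq_sum_ht hA, bb, Finset.sum_range_succ', Finset.sum_range_succ']
  have h0 := col_nbhd_zero hA (i := 0) (by omega)
  have hs : ∑ i ∈ Finset.range m, (ht n A (i + 1)
      + max (ht n A i - ht n A (i + 1)) (ee n (ht n A (i + 1))))
      ≤ ∑ i ∈ Finset.range m,
        ((Finset.range n).filter (fun j => (i + 1, j) ∈ nbhd (m + 1) n A)).card := by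
    apply Finset.sum_le_sum
    intro i hi
    rw [Finset.mem_range] at hi
    have ha := col_nbhd_zero hA (i := i + 1) (by omega)
    have hb := col_nbhd_succ hA (i := i) (by omega)
    omega
  rw [Finset.sum_add_distrib] at hs
  omega

lemma tele_down (h : ℕ → ℕ) (e : ℕ → ℕ) (M : ℕ) :
    h 0 ≤ h M + ∑ i ∈ Finset.range M, max (h i - h (i + 1)) (e i) := by
  induction M with
  | zero => simp
  | succ M ih => rw [Finset.sum_range_succ]; omega

lemma tele_up (g : ℕ → ℕ) (e : ℕ → ℕ) (M : ℕ) :
    g M ≤ g 0 + ∑ i ∈ Finset.range M, max (g (i + 1) - g i) (e i) := by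
  induction M with
  | zero => simp
  | succ M ih => rw [Finset.sum_range_succ]; omega

lemma small_case (n : ℕ) (M : ℕ) : ∀ h : ℕ → ℕ, (∀ i, h (i + 1) ≤ h i) → h 0 < n → h M = 0 →
    2 * ∑ i ∈ Finset.range (M + 1), h i ≤ bb n h M * (bb n h M - 1) := by
  induction M with
  | zero =>
    intro h _ _ h0
    simp [h0]
  | succ M ih =>
    intro h hanti h0n hM
    rw [Finset.sum_range_succ']
    have key := ih (fun i => h (i + 1)) (fun i => hanti (i + 1))
      (lt_of_le_of_lt (hanti 0) h0n) hM
    have hb : bb n h (M + 1) = ee n (h 0) + max (h 0 - h 1) (ee n (h 1)) +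
        ∑ i ∈ Finset.range M, max (h (i + 1) - h (i + 2)) (ee n (h (i + 2))) := by
      unfold bb
      rw [Finset.sum_range_succ']
      ring
    have hb' : bb n (fun i => h (i + 1)) M = ee n (h 1) +
        ∑ i ∈ Finset.range M, max (h (i + 1) - h (i + 2)) (ee n (h (i + 2))) := rfl
    by_cases hz : h 0 = 0
    · have hall : ∀ i, h i = 0 := by
        intro i
        induction i with
        | zero => exact hz
        | succ i ihi => have := hanti i; omega
      simp [hall]
    · have he : ee n (h 0) = 1 := by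
        unfold ee
        rw [if_pos ⟨by omega, h0n⟩]
      have htel := tele_down h (fun i => ee n (h (i + 1))) (M + 1)
      have hge : h 0 + 1 ≤ bb n h (M + 1) := by
        unfold bb
        rw [he]
        rw [hM] at htel
        simp only [zero_add] at htel
        omega
      have hle : bb n (fun i => h (i + 1)) M + 1 ≤ bb n h (M + 1) := by
        rw [hb, hb', he]
        have := le_max_right (h 0 - h 1) (ee n (h 1))
        omega
      obtain ⟨b, hbdef⟩ : ∃ b, bb n h (M + 1) = b + 1 := ⟨bb n h (M + 1) - 1, by omega⟩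
      obtain ⟨b', hb'def⟩ : ∃ b', bb n (fun i => h (i + 1)) M = b' := ⟨_, rfl⟩
      rw [hb'def] at key hle
      rw [hbdef] at hge hle ⊢
      have hb'b : b' ≤ b := by omega
      have h1 : b' * (b' - 1) ≤ b * (b - 1) := Nat.mul_le_mul hb'b (by omega)
      have h2 : b * (b - 1) + 2 * b = (b + 1) * (b + 1 - 1) := by
        cases b with
        | zero => simp
        | succ b => simp only [Nat.add_sub_cancel]; ring
      have key2 : 2 * ∑ i ∈ Finset.range (M + 1), h (i + 1) ≤ b' * (b' - 1) := key
      omega

lemma big_case (M : ℕ) : ∀ g e : ℕ → ℕ, g 0 = 0 → (∀ i, 1 ≤ g (i + 1) → 1 ≤ e i) →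
    2 * ∑ i ∈ Finset.range (M + 1), g i
      ≤ (∑ i ∈ Finset.range M, max (g (i + 1) - g i) (e i)) *
        ((∑ i ∈ Finset.range M, max (g (i + 1) - g i) (e i)) + 1) := by
  induction M with
  | zero =>
    intro g e h0 _
    simp [h0]
  | succ M ih =>
    intro g e h0 he
    rw [Finset.sum_range_succ]
    have key := ih g e h0 he
    have htel := tele_up g e (M + 1)
    rw [h0, zero_add] at htel
    set b := ∑ i ∈ Finset.range M, max (g (i + 1) - g i) (e i) with hb
    have hb2 : ∑ i ∈ Finset.range (M + 1), max (g (i + 1) - g i) (e i)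
        = b + max (g (M + 1) - g M) (e M) := by rw [Finset.sum_range_succ]
    rw [hb2] at htel ⊢
    by_cases hz : g (M + 1) = 0
    · rw [hz]
      set x := max (0 - g M) (e M)
      nlinarith [Nat.zero_le x, Nat.zero_le b]
    · have := he M (by omega)
      have hx : 1 ≤ max (g (M + 1) - g M) (e M) := le_trans this (le_max_right _ _)
      set x := max (g (M + 1) - g M) (e M)
      nlinarith [Nat.zero_le b]

lemma iso {m n : ℕ} (hnm : n ≤ m + 1) {A : Finset (ℕ × ℕ)} (hA : IsIdeal (m + 1) n A) {b : ℕ}
    (hb : A.card + b = (nbhd (m + 1) n A).card) :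
    n ≤ b ∨ 2 * A.card ≤ b * (b - 1) ∨ 2 * ((m + 1) * n - A.card) ≤ b * (b + 1) := by
  have hge := card_nbhd_ge hA
  have hbb : bb n (ht n A) m ≤ b := by omega
  by_cases hnb : n ≤ b
  · exact Or.inl hnb
  right
  have hanti : ∀ i, ht n A (i + 1) ≤ ht n A i := fun i => ht_anti hA (by omega)
  have htop := ht_le n A 0
  by_cases h0 : ht n A 0 < n
  · by_cases hm : ht n A m = 0
    · left
      have := small_case n m (ht n A) hanti h0 hm
      rw [card_eq_sum_ht hA]
      exact le_trans this (Nat.mul_le_mul hbb (by omega))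
    · exfalso
      -- every column contributes
      have hee : ∀ i ≤ m, ee n (ht n A i) = 1 := by
        intro i hi
        have h1 := ht_anti hA hi
        have h2 := ht_anti hA (Nat.zero_le i)
        unfold ee
        rw [if_pos ⟨by omega, by omega⟩]
      have : m + 1 ≤ bb n (ht n A) m := by
        unfold bb
        rw [hee 0 (by omega)]
        have hs : ∑ i ∈ Finset.range m, 1 ≤
            ∑ i ∈ Finset.range m, max (ht n A i - ht n A (i + 1)) (ee n (ht n A (i + 1))) := by
          apply Finset.sum_le_sum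
          intro i hi
          rw [Finset.mem_range] at hi
          rw [hee (i + 1) (by omega)]
          exact le_max_right _ _
        simp only [Finset.sum_const, Finset.card_range, smul_eq_mul, mul_one] at hs
        omega
      omega
  · have h0n : ht n A 0 = n := by omega
    by_cases hm : ht n A m = 0
    · exfalso
      have htel := tele_down (ht n A) (fun i => ee n (ht n A (i + 1))) m
      rw [hm, zero_add, h0n] at htel
      unfold bb at hbb
      omega
    · right
      have hpos : ∀ i ≤ m, 1 ≤ ht n A i := by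
        intro i hi
        have := ht_anti hA hi
        omega
      -- g i = n - ht i
      have hbig := big_case m (fun i => n - ht n A i)
        (fun i => if i < m then ee n (ht n A (i + 1)) else 1) (by simp [h0n]) (by
          intro i hi
          have hi' : 1 ≤ n - ht n A (i + 1) := hi
          show 1 ≤ (if i < m then ee n (ht n A (i + 1)) else 1)
          split_ifs with him
          · unfold ee
            rw [if_pos ⟨hpos (i + 1) (by omega), by omega⟩]
          · exact le_rfl)
      have hsum : ∑ i ∈ Finset.range m, max ((n - ht n A (i + 1)) - (n - ht n A i))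
          (if i < m then ee n (ht n A (i + 1)) else 1)
          = ∑ i ∈ Finset.range m, max (ht n A i - ht n A (i + 1)) (ee n (ht n A (i + 1))) := by
        apply Finset.sum_congr rfl
        intro i hi
        rw [Finset.mem_range] at hi
        rw [if_pos hi]
        have h1 := ht_le n A i
        have h2 := hanti i
        congr 1
        omega
      have hbig' := hbig
      beta_reduce at hbig'
      rw [hsum] at hbig'
      have hG : ∑ i ∈ Finset.range (m + 1), (n - ht n A i) + A.card = (m + 1) * n := by
        rw [card_eq_sum_ht hA, ← Finset.sum_add_distrib]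
        have : ∀ i ∈ Finset.range (m + 1), n - ht n A i + ht n A i = n := by
          intro i _
          have := ht_le n A i
          omega
        rw [Finset.sum_congr rfl this]
        simp
      have hle : ∑ i ∈ Finset.range m, max (ht n A i - ht n A (i + 1)) (ee n (ht n A (i + 1)))
          ≤ b := by
        unfold bb at hbb
        omega
      have : 2 * ((m + 1) * n - A.card) = 2 * ∑ i ∈ Finset.range (m + 1), (n - ht n A i) := by
        omega
      rw [this]
      exact le_trans hbig' (Nat.mul_le_mul hle (by omega))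

/-! ## Part 2: levels -/

/-- size of the antidiagonal `i + j = l` (0-based) -/
def dd (m n l : ℕ) : ℕ := min (min (l + 1) n) (m + n - 1 - l)

/-- number of cells with `i + j < l` -/
def TT (m n l : ℕ) : ℕ := ∑ j ∈ Finset.range l, dd m n j

lemma TT_zero (m n : ℕ) : TT m n 0 = 0 := rfl

lemma TT_succ (m n l : ℕ) : TT m n (l + 1) = TT m n l + dd m n l := by
  unfold TT
  rw [Finset.sum_range_succ]

lemma TT_mono (m n : ℕ) {a b : ℕ} (h : a ≤ b) : TT m n a ≤ TT m n b := by
  induction b, h using Nat.le_induction with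
  | base => exact le_rfl
  | succ b _ ih => rw [TT_succ]; omega

lemma TT_low {m N : ℕ} (hm : N + 1 ≤ m) {l : ℕ} (hl : l ≤ N + 1) :
    2 * TT m (N + 1) l = l * (l + 1) := by
  induction l with
  | zero => simp [TT_zero]
  | succ l ih =>
    have h := ih (by omega)
    have hd : dd m (N + 1) l = l + 1 := by
      unfold dd
      omega
    rw [TT_succ, hd, mul_add, h]
    ring

lemma TT_mid {m N : ℕ} (hm : N + 1 ≤ m) {k : ℕ} (hl : N + k ≤ m) :
    2 * TT m (N + 1) (N + k) = N * (N + 1) + 2 * k * (N + 1) := by
  induction k with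
  | zero =>
    have := TT_low hm (l := N) (by omega)
    show 2 * TT m (N + 1) N = N * (N + 1) + 2 * 0 * (N + 1)
    rw [this]
    ring
  | succ k ih =>
    have h := ih (by omega)
    have hd : dd m (N + 1) (N + k) = N + 1 := by
      unfold dd
      omega
    rw [show N + (k + 1) = (N + k) + 1 by ring, TT_succ, hd, mul_add, h]
    ring

lemma TT_top {m N : ℕ} (hm : N + 1 ≤ m) {k : ℕ} (hl : k ≤ N) :
    2 * TT m (N + 1) (m + k) + (N - k) * (N - k + 1) = 2 * (m * (N + 1)) := by
  induction k with
  | zero =>
    obtain ⟨t, rfl⟩ : ∃ t, m = N + t := ⟨m - N, by omega⟩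
    have := TT_mid hm (k := t) (by omega)
    show 2 * TT (N + t) (N + 1) (N + t) + N * (N + 1) = 2 * ((N + t) * (N + 1))
    rw [this]
    ring
  | succ k ih =>
    have h := ih (by omega)
    have hd : dd m (N + 1) (m + k) = N - k := by
      unfold dd
      omega
    obtain ⟨u, hu⟩ : ∃ u, N - k = u + 1 := ⟨N - k - 1, by omega⟩
    have hu2 : N - (k + 1) = u := by omega
    rw [show m + (k + 1) = (m + k) + 1 by ring, TT_succ, hd, hu2, hu]
    rw [hu] at h
    nlinarith

lemma TT_K {m N : ℕ} (hm : N + 1 ≤ m) : TT m (N + 1) (m + N) = m * (N + 1) := by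
  have := TT_top hm (k := N) le_rfl
  simp only [Nat.sub_self, zero_mul, add_zero] at this
  omega

lemma exists_level {m n K s : ℕ} (hs : s < TT m n K) :
    ∃ l < K, ∃ r < dd m n l, s = TT m n l + r := by
  induction K with
  | zero => simp [TT_zero] at hs
  | succ K ih =>
    by_cases h : s < TT m n K
    · obtain ⟨l, hl, r, hr, e⟩ := ih h
      exact ⟨l, by omega, r, hr, e⟩
    · rw [TT_succ] at hs
      exact ⟨K, by omega, s - TT m n K, by omega, by omega⟩

/-! ### the sublevel sets -/

lemma diag_card {m n l : ℕ} (hn : 1 ≤ n) (hm : n ≤ m) (_hl : l < m + n - 1) :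
    ((grid m n).filter (fun p => p.1 + p.2 = l)).card = dd m n l := by
  have : (grid m n).filter (fun p => p.1 + p.2 = l)
      = (Finset.Ico (l + 1 - n) (min m (l + 1))).image (fun i => (i, l - i)) := by
    ext ⟨i, j⟩
    simp only [grid, Finset.mem_filter, Finset.mem_product, Finset.mem_range, Finset.mem_image,
      Finset.mem_Ico, Prod.mk.injEq]
    constructor
    · rintro ⟨⟨h1, h2⟩, h3⟩
      exact ⟨i, ⟨by omega, by omega⟩, rfl, by omega⟩
    · rintro ⟨i', ⟨h1, h2⟩, rfl, h4⟩
      omega
  rw [this, Finset.card_image_of_injective _ (by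
    intro a b h
    simp only [Prod.mk.injEq] at h
    exact h.1), Nat.card_Ico]
  unfold dd
  omega

lemma anti_eq {m n l : ℕ} (hn : 1 ≤ n) (hm : n ≤ m) (hl : l < m + n - 1) :
    anti m n l = TT m n (l + 1) := by
  induction l with
  | zero =>
    have h := diag_card hn hm hl
    rw [TT_succ, TT_zero, zero_add, ← h]
    unfold anti
    congr 1
    ext p
    simp only [Finset.mem_filter]
    constructor
    · rintro ⟨h1, h2⟩
      exact ⟨h1, by omega⟩
    · rintro ⟨h1, h2⟩
      exact ⟨h1, by omega⟩
  | succ l ih =>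
    rw [TT_succ, ← ih (by omega), ← diag_card hn hm hl]
    unfold anti
    rw [← Finset.card_union_of_disjoint]
    · congr 1
      ext p
      simp only [Finset.mem_filter, Finset.mem_union]
      constructor
      · rintro ⟨h1, h2⟩
        by_cases h3 : p.1 + p.2 ≤ l
        · exact Or.inl ⟨h1, h3⟩
        · exact Or.inr ⟨h1, by omega⟩
      · rintro (⟨h1, h2⟩ | ⟨h1, h2⟩)
        · exact ⟨h1, by omega⟩
        · exact ⟨h1, by omega⟩
    · rw [Finset.disjoint_left]
      intro p h1 h2
      rw [Finset.mem_filter] at h1 h2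
      omega

/-! ### the lower bound for `nu` -/

lemma exists_ideal {m n s : ℕ} (hn : 1 ≤ n) (hs : s ≤ m * n) :
    ∃ A, IsIdeal m n A ∧ A.card = s := by
  refine ⟨(Finset.range s).image (fun k => (k / n, k % n)), ⟨?_, ?_⟩, ?_⟩
  · intro p hp
    rw [Finset.mem_image] at hp
    obtain ⟨k, hk, rfl⟩ := hp
    rw [Finset.mem_range] at hk
    simp only [grid, Finset.mem_product, Finset.mem_range]
    exact ⟨(Nat.div_lt_iff_lt_mul (by omega)).2 (by omega), Nat.mod_lt _ (by omega)⟩
  · intro p hp q h1 h2
    rw [Finset.mem_image] at hp ⊢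
    obtain ⟨k, hk, rfl⟩ := hp
    rw [Finset.mem_range] at hk
    simp only at h1 h2
    have hmod := Nat.mod_lt k (show n > 0 by omega)
    have hdm := Nat.div_add_mod k n
    have hle : n * q.1 ≤ n * (k / n) := Nat.mul_le_mul_left _ h1
    refine ⟨n * q.1 + q.2, Finset.mem_range.2 (by omega), ?_⟩
    have h3 : (n * q.1 + q.2) / n = q.1 := by
      rw [Nat.mul_add_div (by omega), Nat.div_eq_of_lt (by omega), add_zero]
    have h4 : (n * q.1 + q.2) % n = q.2 := by
      rw [Nat.mul_add_mod, Nat.mod_eq_of_lt (by omega)]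
    rw [h3, h4]
  · rw [Finset.card_image_of_injective, Finset.card_range]
    intro a b h
    simp only [Prod.mk.injEq] at h
    rw [← Nat.div_add_mod a n, ← Nat.div_add_mod b n, h.1, h.2]

lemma nu_spec {m n s : ℕ} (hn : 1 ≤ n) (hs : s ≤ m * n) :
    ∃ A, IsIdeal m n A ∧ A.card = s ∧ (nbhd m n A).card = nu m n s := by
  have hne : {k | ∃ A, IsIdeal m n A ∧ A.card = s ∧ (nbhd m n A).card = k}.Nonempty := by
    obtain ⟨A, hA, hc⟩ := exists_ideal hn hs
    exact ⟨_, A, hA, hc, rfl⟩
  exact Nat.sInf_mem hne

lemma le_nu {m n s : ℕ} (hm : 1 ≤ m) (hn : 1 ≤ n) (hs : s ≤ m * n) : s ≤ nu m n s := by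
  obtain ⟨A, hA, hc, hN⟩ := nu_spec hn hs
  obtain ⟨m', rfl⟩ : ∃ m', m = m' + 1 := ⟨m - 1, by omega⟩
  have := card_nbhd_ge hA
  omega

lemma nu_lower {m N : ℕ} (hm : N + 1 ≤ m) {l r : ℕ} (hl : l < m + N)
    (hr : r < dd m (N + 1) l) (hpos : 1 ≤ TT m (N + 1) l + r) :
    TT m (N + 1) (l + 1) + r + (if 1 ≤ r ∧ l + 2 ≤ N + 1 then 1 else 0)
      ≤ nu m (N + 1) (TT m (N + 1) l + r) := by
  have hK := TT_K hm
  have hmono := TT_mono m (N + 1) (show l + 1 ≤ m + N by omega)
  have hsucc := TT_succ m (N + 1) l
  have hsmn : TT m (N + 1) l + r < m * (N + 1) := by omega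
  obtain ⟨A, hA, hc, hN⟩ := nu_spec (m := m) (n := N + 1) (by omega) hsmn.le
  have hle := le_nu (m := m) (n := N + 1) (by omega) (by omega) hsmn.le
  obtain ⟨M, rfl⟩ : ∃ M, m = M + 1 := ⟨m - 1, by omega⟩
  obtain ⟨b, hb⟩ : ∃ b, nu (M + 1) (N + 1) (TT (M + 1) (N + 1) l + r)
      = (TT (M + 1) (N + 1) l + r) + b := ⟨_, (Nat.add_sub_cancel' hle).symm⟩
  have hiso := iso (m := M) (n := N + 1) (by omega) hA (b := b) (by rw [hN, hc, hb])
  rw [hc] at hiso
  rw [hb]
  set s := TT (M + 1) (N + 1) l + r with hsdef
  suffices h : dd (M + 1) (N + 1) l + (if 1 ≤ r ∧ l + 2 ≤ N + 1 then 1 else 0) ≤ b by omega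
  have hmn : (N + 1) * (N + 1) ≤ (M + 1) * (N + 1) := Nat.mul_le_mul_right _ hm
  by_cases h1 : l ≤ N
  · -- region I
    have hT := TT_low hm (l := l) (by omega)
    have hd : dd (M + 1) (N + 1) l = l + 1 := by unfold dd; omega
    rw [hd] at hr ⊢
    have h2s : 2 * s = l * (l + 1) + 2 * r := by omega
    rcases hiso with h | h | h
    · split_ifs <;> omega
    · -- 2 s ≤ b (b-1)
      have hbl : l + 1 ≤ b := by
        by_contra hcon
        push Not at hcon
        have : b * (b - 1) ≤ l * (l - 1) := Nat.mul_le_mul (by omega) (by omega)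
        rcases Nat.eq_zero_or_pos l with h0 | h0
        · subst h0
          omega
        · have : l * (l - 1) < l * (l + 1) := Nat.mul_lt_mul_of_pos_left (by omega) h0
          omega
      split_ifs with hc2
      · by_contra hcon
        have hb1 : b = l + 1 := by omega
        rw [hb1] at h
        have : (l + 1) * (l + 1 - 1) = l * (l + 1) := by
          rw [Nat.add_sub_cancel]; ring
        omega
      · omega
    · -- 2 (mn - s) ≤ b (b+1)
      have hbN : N + 1 ≤ b := by
        by_contra hcon
        push Not at hcon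
        have h3 : b * (b + 1) ≤ N * (N + 1) := Nat.mul_le_mul (by omega) (by omega)
        have h4 : l * (l + 1) ≤ N * (N + 1) := Nat.mul_le_mul (by omega) (by omega)
        have h5 : (N + 1) * (N + 1) = N * (N + 1) + N + 1 := by ring
        omega
      split_ifs <;> omega
  · by_cases h2 : l < M + 1
    · -- region II
      obtain ⟨k, rfl⟩ : ∃ k, l = N + k := ⟨l - N, by omega⟩
      have hT := TT_mid hm (k := k) (by omega)
      have hT2 := TT_top hm (k := 0) (by omega)
      have hmono2 := TT_mono (M + 1) (N + 1) (show N + k + 1 ≤ M + 1 by omega)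
      have hd : dd (M + 1) (N + 1) (N + k) = N + 1 := by unfold dd; omega
      simp only [Nat.add_zero, Nat.sub_zero] at hT2
      rw [if_neg (by omega), hd]
      rcases hiso with h | h | h
      · omega
      · by_contra hcon
        push Not at hcon
        have h3 : b * (b - 1) ≤ N * (N - 1) := Nat.mul_le_mul (by omega) (by omega)
        have h4 : N * (N - 1) ≤ N * (N + 1) := Nat.mul_le_mul le_rfl (by omega)
        rcases Nat.eq_zero_or_pos N with h0 | h0
        · subst h0
          omega
        · have : N * (N - 1) < N * (N + 1) := Nat.mul_lt_mul_of_pos_left (by omega) h0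
          omega
      · by_contra hcon
        push Not at hcon
        have h3 : b * (b + 1) ≤ N * (N + 1) := Nat.mul_le_mul (by omega) (by omega)
        omega
    · -- region III
      obtain ⟨k, rfl⟩ : ∃ k, l = (M + 1) + k := ⟨l - (M + 1), by omega⟩
      have hT := TT_top hm (k := k) (by omega)
      have hT2 := TT_top hm (k := 0) (by omega)
      have hmono2 := TT_mono (M + 1) (N + 1) (show M + 1 ≤ M + 1 + k by omega)
      have hd : dd (M + 1) (N + 1) (M + 1 + k) = N - k := by unfold dd; omega
      simp only [Nat.add_zero, Nat.sub_zero] at hT2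
      rw [if_neg (by omega), hd]
      rw [hd] at hr
      obtain ⟨u, hu⟩ : ∃ u, N - k = u + 1 := ⟨N - k - 1, by omega⟩
      rw [hu] at hT hr ⊢
      have e1 : (u + 1) * (u + 1 + 1) = u * (u + 1) + 2 * (u + 1) := by ring
      rcases hiso with h | h | h
      · omega
      · by_contra hcon
        push Not at hcon
        have h3 : b * (b - 1) ≤ N * (N + 1) := Nat.mul_le_mul (by omega) (by omega)
        have h5 : (N + 1) * (N + 1) = N * (N + 1) + N + 1 := by ring
        omega
      · by_contra hcon
        push Not at hcon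
        have h3 : b * (b + 1) ≤ u * (u + 1) := Nat.mul_le_mul (by omega) (by omega)
        omega

/-! ## Part 3: chains -/

/-- `U j = mn - T j` -/
def UU (m n l : ℕ) : ℕ := m * n - TT m n l

lemma UU_succ {m N l : ℕ} (hm : N + 1 ≤ m) (hl : l < m + N) :
    UU m (N + 1) l = UU m (N + 1) (l + 1) + dd m (N + 1) l := by
  have hK := TT_K hm
  have hmono := TT_mono m (N + 1) (show l + 1 ≤ m + N by omega)
  have hsucc := TT_succ m (N + 1) l
  unfold UU
  omega

lemma UU_anti (m n : ℕ) {a b : ℕ} (h : a ≤ b) : UU m n b ≤ UU m n a := by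
  have := TT_mono m n h
  unfold UU
  omega

lemma dd_mono {m N i j : ℕ} (hij : i ≤ j) (hj : j < m) : dd m (N + 1) i ≤ dd m (N + 1) j := by
  unfold dd
  omega

/-- the abstract form of the chain condition -/
structure Good (m N L : ℕ) (c : ℕ → ℕ) : Prop where
  le : ∀ i ≤ L, c i ≤ m * (N + 1)
  mono : ∀ i < L, c i ≤ c (i + 1)
  step : ∀ i < L, ∀ l r, l < m + N → r < dd m (N + 1) l → c i = TT m (N + 1) l + r → 1 ≤ c i →
    TT m (N + 1) (l + 1) + r + (if 1 ≤ r ∧ l + 2 ≤ N + 1 then 1 else 0) ≤ c (i + 1)

lemma good_of_chain {m N L : ℕ} (hm : N + 1 ≤ m) {c : ℕ → ℕ} (hc : IsNuChain m (N + 1) L c) :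
    Good m N L c := by
  refine ⟨hc.le, ?_, ?_⟩
  · intro i hi
    exact le_trans (le_nu (by omega) (by omega) (hc.le i (by omega))) (hc.step i hi)
  · intro i hi l r hl hr he hpos
    have h := nu_lower hm hl hr (by omega)
    rw [← he] at h
    exact le_trans h (hc.step i hi)

lemma Good.mono' {m N L : ℕ} {c : ℕ → ℕ} (hc : Good m N L c) {i j : ℕ} (hij : i ≤ j)
    (hj : j ≤ L) : c i ≤ c j := by
  induction j, hij using Nat.le_induction with
  | base => exact le_rfl
  | succ j _ ih => exact le_trans (ih (by omega)) (hc.mono j (by omega))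

lemma low {m N L : ℕ} (hm : N + 1 ≤ m) {c : ℕ → ℕ} (hc : Good m N L c) (q : ℕ) :
    q ≤ L → ∀ l r, l < m → r < dd m (N + 1) l → c q = TT m (N + 1) l + r →
    ∑ i ∈ Finset.range q, c i
      ≤ ∑ j ∈ Finset.range l,
        max (TT m (N + 1) j) (TT m (N + 1) (j + 1) - (dd m (N + 1) l - r)) := by
  induction q with
  | zero => intros; simp
  | succ q ih =>
    intro hq l' r' hl' hr' he'
    rw [Finset.sum_range_succ]
    have hmq := hc.mono q (by omega)
    by_cases h0 : c q = 0
    · have h := ih (by omega) 0 0 (by omega) (by unfold dd; omega) (by rw [h0, TT_zero])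
      simp only [Finset.range_zero, Finset.sum_empty, Nat.le_zero] at h
      rw [h, h0]
      exact Nat.zero_le _
    · have hK := TT_K hm
      have hsucc' := TT_succ m (N + 1) l'
      have hmono' := TT_mono m (N + 1) (show l' + 1 ≤ m + N by omega)
      obtain ⟨l, hl, r, hr, he⟩ := exists_level (m := m) (n := N + 1) (K := m + N) (s := c q)
        (by omega)
      have hstep := hc.step q (by omega) l r hl hr he (by omega)
      have hsucc := TT_succ m (N + 1) l
      have hll : l < l' := by
        by_contra hcon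
        push Not at hcon
        have := TT_mono m (N + 1) (show l' + 1 ≤ l + 1 by omega)
        omega
      have h := ih (by omega) l r (by omega) hr he
      by_cases hcase : l' = l + 1
      · subst hcase
        rw [Finset.sum_range_succ]
        have hdl : dd m (N + 1) l = min (l + 1) (N + 1) := by unfold dd; omega
        have hdl' : dd m (N + 1) (l + 1) = min (l + 2) (N + 1) := by unfold dd; omega
        by_cases hQ : dd m (N + 1) (l + 1) - r' ≤ dd m (N + 1) l - r
        · have h1 : ∑ j ∈ Finset.range l,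
              max (TT m (N + 1) j) (TT m (N + 1) (j + 1) - (dd m (N + 1) l - r))
              ≤ ∑ j ∈ Finset.range l,
              max (TT m (N + 1) j) (TT m (N + 1) (j + 1) - (dd m (N + 1) (l + 1) - r')) := by
            apply Finset.sum_le_sum
            intro j _
            omega
          have h2 : c q ≤ max (TT m (N + 1) l)
              (TT m (N + 1) (l + 1) - (dd m (N + 1) (l + 1) - r')) := by
            have := le_max_right (TT m (N + 1) l)
              (TT m (N + 1) (l + 1) - (dd m (N + 1) (l + 1) - r'))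
            omega
          omega
        · -- then r = 0
          have hr0 : r = 0 := by
            by_contra hr0
            split_ifs at hstep <;> omega
          subst hr0
          have h1 : ∑ j ∈ Finset.range l,
              max (TT m (N + 1) j) (TT m (N + 1) (j + 1) - (dd m (N + 1) l - 0))
              ≤ ∑ j ∈ Finset.range l,
              max (TT m (N + 1) j) (TT m (N + 1) (j + 1) - (dd m (N + 1) (l + 1) - r')) := by
            apply Finset.sum_le_sum
            intro j hj
            rw [Finset.mem_range] at hj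
            have h3 := dd_mono (N := N) (show j ≤ l by omega) (show l < m by omega)
            have h4 := TT_succ m (N + 1) j
            omega
          have h2 : c q ≤ max (TT m (N + 1) l)
              (TT m (N + 1) (l + 1) - (dd m (N + 1) (l + 1) - r')) := by
            have := le_max_left (TT m (N + 1) l)
              (TT m (N + 1) (l + 1) - (dd m (N + 1) (l + 1) - r'))
            omega
          omega
      · -- skip
        have h1 : ∑ j ∈ Finset.range l,
            max (TT m (N + 1) j) (TT m (N + 1) (j + 1) - (dd m (N + 1) l - r))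
            ≤ ∑ j ∈ Finset.range l, TT m (N + 1) (j + 1) := by
          apply Finset.sum_le_sum
          intro j _
          have := TT_succ m (N + 1) j
          omega
        have h2 : ∑ j ∈ Finset.range (l + 1), TT m (N + 1) (j + 1)
            ≤ ∑ j ∈ Finset.range l', TT m (N + 1) j := by
          have h3 : ∑ j ∈ Finset.range (l + 2), TT m (N + 1) j
              ≤ ∑ j ∈ Finset.range l', TT m (N + 1) j :=
            Finset.sum_le_sum_of_subset (Finset.range_mono (by omega))
          rw [Finset.sum_range_succ' _ (l + 1)] at h3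
          exact le_trans (Nat.le_add_right _ _) h3
        have h4 : ∑ j ∈ Finset.range l', TT m (N + 1) j ≤ ∑ j ∈ Finset.range l',
            max (TT m (N + 1) j) (TT m (N + 1) (j + 1) - (dd m (N + 1) l' - r')) :=
          Finset.sum_le_sum (fun j _ => le_max_left _ _)
        rw [Finset.sum_range_succ] at h2
        omega

/-- crude version of `low` -/
lemma low' {m N L : ℕ} (hm : N + 1 ≤ m) {c : ℕ → ℕ} (hc : Good m N L c) {q p : ℕ}
    (hq : q ≤ L) (hp : p ≤ m) (hlt : c q < TT m (N + 1) p) :
    ∑ i ∈ Finset.range (q + 1), c i ≤ ∑ j ∈ Finset.range p, TT m (N + 1) (j + 1) := by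
  obtain ⟨l, hl, r, hr, he⟩ := exists_level hlt
  have h := low hm hc q hq l r (by omega) hr he
  rw [Finset.sum_range_succ]
  have h1 : ∑ j ∈ Finset.range l,
      max (TT m (N + 1) j) (TT m (N + 1) (j + 1) - (dd m (N + 1) l - r))
      ≤ ∑ j ∈ Finset.range l, TT m (N + 1) (j + 1) := by
    apply Finset.sum_le_sum
    intro j _
    have := TT_succ m (N + 1) j
    omega
  have h2 : ∑ j ∈ Finset.range (l + 1), TT m (N + 1) (j + 1)
      ≤ ∑ j ∈ Finset.range p, TT m (N + 1) (j + 1) :=
    Finset.sum_le_sum_of_subset (Finset.range_mono (by omega))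
  rw [Finset.sum_range_succ] at h2
  have := TT_succ m (N + 1) l
  omega

lemma high {m N L : ℕ} (hm : N + 1 ≤ m) {c : ℕ → ℕ} (hc : Good m N L c) (k : ℕ) :
    ∀ q, q + k ≤ L → ∀ l r, l < m + N → r < dd m (N + 1) l → c q = TT m (N + 1) l + r →
    1 ≤ c q →
    ∑ i ∈ Finset.range k, (m * (N + 1) - c (q + 1 + i))
      ≤ ∑ j ∈ Finset.Ico (l + 1) (m + N),
        max (UU m (N + 1) (j + 1)) (UU m (N + 1) j - r) := by
  induction k with
  | zero => intros; simp
  | succ k ih =>
    intro q hq l r hl hr he hpos
    rw [Finset.sum_range_succ']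
    have hmq := hc.mono q (by omega)
    have hK := TT_K hm
    have hcle := hc.le (q + 1) (by omega)
    by_cases hfull : c (q + 1) = m * (N + 1)
    · have : ∀ i ∈ Finset.range k, m * (N + 1) - c (q + 1 + (i + 1)) = 0 := by
        intro i hi
        rw [Finset.mem_range] at hi
        have h1 := hc.mono' (show q + 1 ≤ q + 1 + (i + 1) by omega) (by omega)
        have h2 := hc.le (q + 1 + (i + 1)) (by omega)
        omega
      rw [Finset.sum_eq_zero this]
      simp only [Nat.add_zero]
      omega
    · obtain ⟨l', hl', r', hr', he'⟩ := exists_level (m := m) (n := N + 1) (K := m + N)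
        (s := c (q + 1)) (by omega)
      have hstep := hc.step q (by omega) l r hl hr he hpos
      have hsucc := TT_succ m (N + 1) l
      have hsucc' := TT_succ m (N + 1) l'
      have hll : l < l' := by
        by_contra hcon
        push Not at hcon
        have := TT_mono m (N + 1) (show l' + 1 ≤ l + 1 by omega)
        omega
      have h := ih (q + 1) (by omega) l' r' hl' hr' he' (by omega)
      have hsame : ∑ i ∈ Finset.range k, (m * (N + 1) - c (q + 1 + (i + 1)))
          = ∑ i ∈ Finset.range k, (m * (N + 1) - c (q + 1 + 1 + i)) := by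
        apply Finset.sum_congr rfl
        intro i _
        rw [show q + 1 + (i + 1) = q + 1 + 1 + i by ring]
      rw [hsame]
      have hhead : m * (N + 1) - c (q + 1 + 0) = UU m (N + 1) l' - r' := by
        rw [Nat.add_zero, he']
        unfold UU
        omega
      rw [hhead]
      by_cases hcase : l' = l + 1
      · subst hcase
        have hrr : r ≤ r' := by omega
        rw [Finset.sum_eq_sum_Ico_succ_bot hl']
        have h1 : ∑ j ∈ Finset.Ico (l + 1 + 1) (m + N),
            max (UU m (N + 1) (j + 1)) (UU m (N + 1) j - r')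
            ≤ ∑ j ∈ Finset.Ico (l + 1 + 1) (m + N),
            max (UU m (N + 1) (j + 1)) (UU m (N + 1) j - r) := by
          apply Finset.sum_le_sum
          intro j _
          omega
        have h2 := le_max_right (UU m (N + 1) (l + 1 + 1)) (UU m (N + 1) (l + 1) - r)
        omega
      · have h1 : ∑ j ∈ Finset.Ico (l' + 1) (m + N),
            max (UU m (N + 1) (j + 1)) (UU m (N + 1) j - r')
            ≤ ∑ j ∈ Finset.Ico (l' + 1) (m + N), UU m (N + 1) j := by
          apply Finset.sum_le_sum
          intro j _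
          have := UU_anti m (N + 1) (show j ≤ j + 1 by omega)
          omega
        have h2 : ∑ j ∈ Finset.Ico l' (m + N), UU m (N + 1) j
            = UU m (N + 1) l' + ∑ j ∈ Finset.Ico (l' + 1) (m + N), UU m (N + 1) j :=
          Finset.sum_eq_sum_Ico_succ_bot hl' _
        have h3 : ∑ j ∈ Finset.Ico l' (m + N), UU m (N + 1) j
            ≤ ∑ j ∈ Finset.Ico (l + 2) (m + N + 1), UU m (N + 1) j := by
          apply Finset.sum_le_sum_of_subset
          intro j hj
          rw [Finset.mem_Ico] at hj ⊢
          omega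
        have h4 : ∑ j ∈ Finset.Ico (l + 2) (m + N + 1), UU m (N + 1) j
            = ∑ j ∈ Finset.Ico (l + 1) (m + N), UU m (N + 1) (j + 1) := by
          rw [Finset.sum_Ico_add' (fun j => UU m (N + 1) j) (l + 1) (m + N) 1]
        have h5 : ∑ j ∈ Finset.Ico (l + 1) (m + N), UU m (N + 1) (j + 1)
            ≤ ∑ j ∈ Finset.Ico (l + 1) (m + N),
              max (UU m (N + 1) (j + 1)) (UU m (N + 1) j - r) :=
          Finset.sum_le_sum (fun j _ => le_max_left _ _)
        omega

/-- crude version of `high` -/
lemma high' {m N L : ℕ} (hm : N + 1 ≤ m) {c : ℕ → ℕ} (hc : Good m N L c) {q p k : ℕ}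
    (hq : q + k ≤ L) (hpos : 1 ≤ c q) (hge : TT m (N + 1) p ≤ c q) :
    ∑ i ∈ Finset.range (k + 1), (m * (N + 1) - c (q + i))
      ≤ ∑ j ∈ Finset.Ico p (m + N), UU m (N + 1) j := by
  have hK := TT_K hm
  have hcle := hc.le q (by omega)
  rw [Finset.sum_range_succ']
  simp only [Nat.add_zero]
  by_cases hfull : c q = m * (N + 1)
  · have : ∀ i ∈ Finset.range k, m * (N + 1) - c (q + (i + 1)) = 0 := by
      intro i hi
      rw [Finset.mem_range] at hi
      have h1 := hc.mono' (show q ≤ q + (i + 1) by omega) (by omega)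
      omega
    rw [Finset.sum_eq_zero this]
    omega
  · obtain ⟨l, hl, r, hr, he⟩ := exists_level (m := m) (n := N + 1) (K := m + N)
      (s := c q) (by omega)
    have h := high hm hc k q hq l r hl hr he hpos
    have hsucc := TT_succ m (N + 1) l
    have hpl : p ≤ l := by
      by_contra hcon
      push Not at hcon
      have := TT_mono m (N + 1) (show l + 1 ≤ p by omega)
      omega
    have hsame : ∑ i ∈ Finset.range k, (m * (N + 1) - c (q + (i + 1)))
        = ∑ i ∈ Finset.range k, (m * (N + 1) - c (q + 1 + i)) := by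
      apply Finset.sum_congr rfl
      intro i _
      rw [show q + (i + 1) = q + 1 + i by ring]
    rw [hsame]
    have h1 : ∑ j ∈ Finset.Ico (l + 1) (m + N),
        max (UU m (N + 1) (j + 1)) (UU m (N + 1) j - r)
        ≤ ∑ j ∈ Finset.Ico (l + 1) (m + N), UU m (N + 1) j := by
      apply Finset.sum_le_sum
      intro j _
      have := UU_anti m (N + 1) (show j ≤ j + 1 by omega)
      omega
    have h2 : ∑ j ∈ Finset.Ico l (m + N), UU m (N + 1) j
        = UU m (N + 1) l + ∑ j ∈ Finset.Ico (l + 1) (m + N), UU m (N + 1) j :=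
      Finset.sum_eq_sum_Ico_succ_bot hl _
    have h3 : ∑ j ∈ Finset.Ico l (m + N), UU m (N + 1) j
        ≤ ∑ j ∈ Finset.Ico p (m + N), UU m (N + 1) j := by
      apply Finset.sum_le_sum_of_subset
      intro j hj
      rw [Finset.mem_Ico] at hj ⊢
      omega
    have h4 : m * (N + 1) - c q ≤ UU m (N + 1) l := by
      unfold UU
      omega
    omega

/-! ## Part 4: conclusion -/

lemma sum_dd_low (m n p : ℕ) : ∑ j ∈ Finset.range p, dd m n j = TT m n p := rfl

lemma sum_dd_high {m N p : ℕ} (hm : N + 1 ≤ m) (hp : p ≤ m + N) :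
    ∑ j ∈ Finset.Ico p (m + N), dd m (N + 1) j = UU m (N + 1) p := by
  have h : ∑ j ∈ Finset.range (m + N), dd m (N + 1) j
      = ∑ j ∈ Finset.range p, dd m (N + 1) j + ∑ j ∈ Finset.Ico p (m + N), dd m (N + 1) j :=
    (Finset.sum_range_add_sum_Ico _ hp).symm
  rw [sum_dd_low, sum_dd_low, TT_K hm] at h
  unfold UU
  omega

/-- the key numerical inequality at the middle level -/
lemma middle {m N p Q r w : ℕ} (hm : N + 1 ≤ m) (hpN : N ≤ p) (hpm : p < m)
    (hQr : Q + r = N + 1) (hQ : 1 ≤ Q) (hw1 : w ≤ TT m (N + 1) p + r)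
    (hw2 : w ≤ UU m (N + 1) (p + 1) + Q) :
    w ≤ ∑ j ∈ Finset.range p, min (dd m (N + 1) j) Q
      + ∑ j ∈ Finset.Ico (p + 1) (m + N), min (dd m (N + 1) j) r := by
  rcases Nat.eq_zero_or_pos r with hr | hr
  · subst hr
    have : ∑ j ∈ Finset.range p, min (dd m (N + 1) j) Q = TT m (N + 1) p := by
      rw [← sum_dd_low]
      apply Finset.sum_congr rfl
      intro j _
      apply min_eq_left
      unfold dd
      omega
    rw [this]
    omega
  · have h1 : Q * TT m (N + 1) p + Q * r
        ≤ (N + 1) * ∑ j ∈ Finset.range p, min (dd m (N + 1) j) Q := by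
      have hmem : Q - 1 ∈ Finset.range p := Finset.mem_range.2 (by omega)
      have hterm : ∀ j, Q * dd m (N + 1) j ≤ (N + 1) * min (dd m (N + 1) j) Q := by
        intro j
        have hdn : dd m (N + 1) j ≤ N + 1 := by unfold dd; omega
        rcases le_total (dd m (N + 1) j) Q with h | h
        · rw [min_eq_left h]
          exact Nat.mul_le_mul_right _ (by omega)
        · rw [min_eq_right h, mul_comm]
          exact Nat.mul_le_mul_right _ hdn
      rw [← sum_dd_low, Finset.mul_sum, Finset.mul_sum, ← Finset.add_sum_erase _ _ hmem,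
        ← Finset.add_sum_erase _ (fun j => (N + 1) * min (dd m (N + 1) j) Q) hmem]
      have hrest : ∑ j ∈ (Finset.range p).erase (Q - 1), Q * dd m (N + 1) j
          ≤ ∑ j ∈ (Finset.range p).erase (Q - 1), (N + 1) * min (dd m (N + 1) j) Q :=
        Finset.sum_le_sum (fun j _ => hterm j)
      have hd : dd m (N + 1) (Q - 1) = Q := by unfold dd; omega
      rw [hd, min_self]
      have e : (N + 1) * Q = Q * Q + Q * r := by rw [← hQr]; ring
      omega
    have h2 : r * UU m (N + 1) (p + 1) + Q * r
        ≤ (N + 1) * ∑ j ∈ Finset.Ico (p + 1) (m + N), min (dd m (N + 1) j) r := by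
      have hmem : m + N - r ∈ Finset.Ico (p + 1) (m + N) :=
        Finset.mem_Ico.2 ⟨by omega, by omega⟩
      have hterm : ∀ j, r * dd m (N + 1) j ≤ (N + 1) * min (dd m (N + 1) j) r := by
        intro j
        have hdn : dd m (N + 1) j ≤ N + 1 := by unfold dd; omega
        rcases le_total (dd m (N + 1) j) r with h | h
        · rw [min_eq_left h]
          exact Nat.mul_le_mul_right _ (by omega)
        · rw [min_eq_right h, mul_comm]
          exact Nat.mul_le_mul_right _ hdn
      rw [← sum_dd_high hm (by omega), Finset.mul_sum, Finset.mul_sum,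
        ← Finset.add_sum_erase _ _ hmem,
        ← Finset.add_sum_erase _ (fun j => (N + 1) * min (dd m (N + 1) j) r) hmem]
      have hrest : ∑ j ∈ (Finset.Ico (p + 1) (m + N)).erase (m + N - r), r * dd m (N + 1) j
          ≤ ∑ j ∈ (Finset.Ico (p + 1) (m + N)).erase (m + N - r),
            (N + 1) * min (dd m (N + 1) j) r :=
        Finset.sum_le_sum (fun j _ => hterm j)
      have hd : dd m (N + 1) (m + N - r) = r := by unfold dd; omega
      rw [hd, min_self]
      have e : (N + 1) * r = r * r + Q * r := by rw [← hQr]; ring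
      omega
    set S1 := ∑ j ∈ Finset.range p, min (dd m (N + 1) j) Q
    set S2 := ∑ j ∈ Finset.Ico (p + 1) (m + N), min (dd m (N + 1) j) r
    have h3 : (N + 1) * w ≤ Q * (TT m (N + 1) p + r) + r * (UU m (N + 1) (p + 1) + Q) := by
      calc (N + 1) * w = Q * w + r * w := by rw [← hQr]; ring
        _ ≤ _ := Nat.add_le_add (Nat.mul_le_mul_left _ hw1) (Nat.mul_le_mul_left _ hw2)
    have h4 : (N + 1) * w ≤ (N + 1) * (S1 + S2) := by
      calc (N + 1) * w ≤ Q * (TT m (N + 1) p + r) + r * (UU m (N + 1) (p + 1) + Q) := h3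
        _ = (Q * TT m (N + 1) p + Q * r) + (r * UU m (N + 1) (p + 1) + Q * r) := by ring
        _ ≤ (N + 1) * S1 + (N + 1) * S2 := Nat.add_le_add h1 h2
        _ = (N + 1) * (S1 + S2) := by ring
    exact Nat.le_of_mul_le_mul_left h4 (by omega)

lemma D_eq {m N p : ℕ} (hm : N + 1 ≤ m) (hp : p < m)
    (h1 : 2 * TT m (N + 1) p ≤ m * (N + 1)) (h2 : m * (N + 1) < 2 * TT m (N + 1) (p + 1)) :
    D m (N + 1) = ∑ j ∈ Finset.range p, TT m (N + 1) (j + 1)
      + ∑ j ∈ Finset.Ico (p + 1) (m + N), UU m (N + 1) j := by
  have hK := TT_K hm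
  have e0 : D m (N + 1) = ∑ l ∈ Finset.range (m + N),
      min (TT m (N + 1) (l + 1)) (m * (N + 1) - TT m (N + 1) (l + 1)) := by
    unfold D W
    rw [show m + (N + 1) - 2 + 1 = m + N by omega]
    apply Finset.sum_congr rfl
    intro l hl
    rw [Finset.mem_range] at hl
    rw [anti_eq (by omega) hm (by omega)]
  rw [e0, ← Finset.sum_range_add_sum_Ico _ (show p ≤ m + N by omega)]
  congr 1
  · apply Finset.sum_congr rfl
    intro l hl
    rw [Finset.mem_range] at hl
    have := TT_mono m (N + 1) (show l + 1 ≤ p by omega)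
    omega
  · have e1 : ∑ l ∈ Finset.Ico p (m + N),
        min (TT m (N + 1) (l + 1)) (m * (N + 1) - TT m (N + 1) (l + 1))
        = ∑ l ∈ Finset.Ico p (m + N), UU m (N + 1) (l + 1) := by
      apply Finset.sum_congr rfl
      intro l hl
      rw [Finset.mem_Ico] at hl
      have := TT_mono m (N + 1) (show p + 1 ≤ l + 1 by omega)
      unfold UU
      omega
    rw [e1, Finset.sum_Ico_add' (fun j => UU m (N + 1) j) p (m + N) 1,
      Finset.sum_Ico_succ_top (by omega)]
    have : UU m (N + 1) (m + N) = 0 := by
      unfold UU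
      omega
    omega

lemma main_ineq {m N L : ℕ} (hm : N + 1 ≤ m) {c : ℕ → ℕ} (hc : Good m N L c) :
    W m (N + 1) L c ≤ D m (N + 1) := by
  have hK := TT_K hm
  have hmn : (N + 1) * (N + 1) ≤ m * (N + 1) := Nat.mul_le_mul_right _ hm
  have e5 : (N + 1) * (N + 1) = N * (N + 1) + N + 1 := by ring
  by_cases hone : m * (N + 1) ≤ 1
  · -- trivial grid
    have : W m (N + 1) L c = 0 := by
      unfold W
      apply Finset.sum_eq_zero
      intro i _
      omega
    omega
  -- the middle level
  obtain ⟨p, hp, r0, hr0, he0⟩ := exists_level (m := m) (n := N + 1) (K := m + N)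
    (s := m * (N + 1) / 2) (by omega)
  have hsp := TT_succ m (N + 1) p
  have h1 : 2 * TT m (N + 1) p ≤ m * (N + 1) := by omega
  have h2 : m * (N + 1) < 2 * TT m (N + 1) (p + 1) := by omega
  have hpN : N ≤ p := by
    by_contra hcon
    push Not at hcon
    have := TT_mono m (N + 1) (show p + 1 ≤ N by omega)
    have := TT_low hm (l := N) (by omega)
    omega
  have hpm : p < m := by
    by_contra hcon
    push Not at hcon
    have := TT_mono m (N + 1) hcon
    have h3 := TT_top hm (k := 0) (by omega)
    simp only [Nat.add_zero, Nat.sub_zero] at h3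
    omega
  have hTp : 1 ≤ TT m (N + 1) p := by
    have h3 := TT_mono m (N + 1) (show 1 ≤ p by
      by_contra hcon
      have hp0 : p = 0 := by omega
      subst hp0
      rw [TT_succ, TT_zero] at h2
      have : dd m (N + 1) 0 ≤ 1 := by unfold dd; omega
      omega)
    have h4 : TT m (N + 1) 1 = 1 := by
      rw [TT_succ, TT_zero]
      unfold dd
      omega
    omega
  have hdp : dd m (N + 1) p = N + 1 := by unfold dd; omega
  rw [D_eq hm hpm h1 h2]
  -- first index with T p ≤ c i
  by_cases hex : ∃ i, i ≤ L ∧ TT m (N + 1) p ≤ c i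
  · classical
    let q := Nat.find hex
    obtain ⟨hqL, hqT⟩ : q ≤ L ∧ TT m (N + 1) p ≤ c q := Nat.find_spec hex
    have hqmin : ∀ i < q, c i < TT m (N + 1) p := by
      intro i hi
      have := Nat.find_min hex hi
      by_contra hcon
      push Not at hcon
      exact this ⟨by omega, hcon⟩
    obtain ⟨k, hk⟩ : ∃ k, L = q + k := ⟨L - q, by omega⟩
    have hlow' : ∑ i ∈ Finset.range q, c i ≤ ∑ j ∈ Finset.range p, TT m (N + 1) (j + 1) := by
      rcases Nat.eq_zero_or_pos q with h0 | h0
      · rw [h0]
        simp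
      · have := low' hm hc (q := q - 1) (p := p) (by omega) (by omega) (hqmin _ (by omega))
        rwa [Nat.sub_add_cancel h0] at this
    have hsplit : W m (N + 1) L c = ∑ i ∈ Finset.range q, min (c i) (m * (N + 1) - c i)
        + ∑ i ∈ Finset.range (k + 1), min (c (q + i)) (m * (N + 1) - c (q + i)) := by
      unfold W
      rw [show L + 1 = q + (k + 1) by omega, Finset.sum_range_add]
    have hlowle : ∑ i ∈ Finset.range q, min (c i) (m * (N + 1) - c i)
        ≤ ∑ i ∈ Finset.range q, c i := Finset.sum_le_sum (fun i _ => min_le_left _ _)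
    by_cases hA : c q < TT m (N + 1) (p + 1)
    · obtain ⟨r, hr⟩ : ∃ r, c q = TT m (N + 1) p + r := ⟨c q - TT m (N + 1) p, by omega⟩
      have hrd : r < dd m (N + 1) p := by omega
      have hl := low hm hc q hqL p r hpm hrd hr
      have hh := high hm hc k q (by omega) p r (by omega) hrd hr (by omega)
      rw [hdp] at hl hrd
      have hmid := middle (w := min (c q) (m * (N + 1) - c q)) hm hpN hpm
        (Q := N + 1 - r) (r := r) (by omega) (by omega) (by omega) (by
          have h6 := UU_succ hm (show p < m + N by omega)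
          have h7 : UU m (N + 1) p = m * (N + 1) - TT m (N + 1) p := rfl
          omega)
      have eL : ∑ j ∈ Finset.range p,
          max (TT m (N + 1) j) (TT m (N + 1) (j + 1) - (N + 1 - r))
          + ∑ j ∈ Finset.range p, min (dd m (N + 1) j) (N + 1 - r)
          = ∑ j ∈ Finset.range p, TT m (N + 1) (j + 1) := by
        rw [← Finset.sum_add_distrib]
        apply Finset.sum_congr rfl
        intro j _
        have := TT_succ m (N + 1) j
        omega
      have eH : ∑ j ∈ Finset.Ico (p + 1) (m + N),
          max (UU m (N + 1) (j + 1)) (UU m (N + 1) j - r)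
          + ∑ j ∈ Finset.Ico (p + 1) (m + N), min (dd m (N + 1) j) r
          = ∑ j ∈ Finset.Ico (p + 1) (m + N), UU m (N + 1) j := by
        rw [← Finset.sum_add_distrib]
        apply Finset.sum_congr rfl
        intro j hj
        rw [Finset.mem_Ico] at hj
        have := UU_succ hm hj.2
        omega
      have hhead : ∑ i ∈ Finset.range (k + 1), min (c (q + i)) (m * (N + 1) - c (q + i))
          ≤ min (c q) (m * (N + 1) - c q)
            + ∑ i ∈ Finset.range k, (m * (N + 1) - c (q + 1 + i)) := by
        rw [Finset.sum_range_succ', add_comm]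
        simp only [Nat.add_zero]
        apply Nat.add_le_add_left
        apply Finset.sum_le_sum
        intro i _
        rw [show q + (i + 1) = q + 1 + i by ring]
        exact min_le_right _ _
      omega
    · push Not at hA
      have hh := high' hm hc (q := q) (p := p + 1) (k := k) (by omega) (by omega) hA
      have hle2 : ∑ i ∈ Finset.range (k + 1), min (c (q + i)) (m * (N + 1) - c (q + i))
          ≤ ∑ i ∈ Finset.range (k + 1), (m * (N + 1) - c (q + i)) :=
        Finset.sum_le_sum (fun i _ => min_le_right _ _)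
      omega
  · push Not at hex
    have hl := low' hm hc (q := L) (p := p) le_rfl (by omega) (hex L le_rfl)
    have : W m (N + 1) L c ≤ ∑ i ∈ Finset.range (L + 1), c i :=
      Finset.sum_le_sum (fun i _ => min_le_left _ _)
    omega

lemma anti_chain {m n : ℕ} :
    IsNuChain m n (m + n - 2) (anti m n) := by
  constructor
  · intro l _
    unfold anti
    calc _ ≤ (grid m n).card := Finset.card_filter_le _ _
      _ = m * n := by simp [grid]
  · intro l hl
    apply Nat.sInf_le
    refine ⟨(grid m n).filter (fun p => p.1 + p.2 ≤ l), ⟨Finset.filter_subset _ _, ?_⟩, rfl, ?_⟩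
    · intro p hp q h1 h2
      simp only [grid, Finset.mem_filter, Finset.mem_product, Finset.mem_range] at hp ⊢
      omega
    · unfold anti
      congr 1
      ext ⟨i, j⟩
      simp only [nbhd, grid, Finset.mem_filter, Finset.mem_product, Finset.mem_range]
      constructor
      · rintro ⟨⟨h1, h2⟩, h3 | ⟨⟨a, b⟩, ⟨h3, h4⟩, h5⟩⟩
        · exact ⟨⟨h1, h2⟩, by omega⟩
        · refine ⟨⟨h1, h2⟩, ?_⟩
          unfold Adj at h5
          simp only at h4 h5
          omega
      · rintro ⟨⟨h1, h2⟩, h3⟩
        refine ⟨⟨h1, h2⟩, ?_⟩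
        by_cases h4 : i + j ≤ l
        · exact Or.inl ⟨⟨h1, h2⟩, h4⟩
        · right
          rcases Nat.eq_zero_or_pos i with hi | hi
          · subst hi
            refine ⟨(0, j - 1), ⟨⟨by omega, by omega⟩, by omega⟩, ?_⟩
            unfold Adj
            simp only
            omega
          · refine ⟨(i - 1, j), ⟨⟨by omega, by omega⟩, by omega⟩, ?_⟩
            unfold Adj
            simp only
            omega

/-- **The antidiagonal chain has the largest weight among all nu-chains.** -/
theorem result : ∀ m n : ℕ, 1 ≤ n → n ≤ m →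
    IsNuChain m n (m + n - 2) (anti m n) ∧
    ∀ (L : ℕ) (c : ℕ → ℕ), IsNuChain m n L c → W m n L c ≤ D m n := by
  intro m n hn hm
  refine ⟨anti_chain, ?_⟩
  intro L c hc
  obtain ⟨N, rfl⟩ : ∃ N, n = N + 1 := ⟨n - 1, by omega⟩
  exact main_ineq hm (good_of_chain hm hc)

end Pool.Agent.Results.MP_00a158_co.SlowestChain
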